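import Pool.Agent.helper93.ADV.SpecU

set_option autoImplicit false

namespace Pool.Agent.ADV

open Finset Pool.Agent.helper38.Neg Pool.Agent.helper55.NT Pool.Agent.LNB

theorem NRP_mono : ∀ {n s : ℕ} (C : Circuit n s) (x y : Fin n → Bool), x ≤ y → C.notVals x = C.notVals y →
    ∀ k, C.val x k = true → C.val y k = true := by
  intro n s C
  induction C with
  | nil => intro x y h _ k hk; exact h k hk
  | @snoc s C g ih =>
    intro x y h hv k
    cases g with
    | const b =>
      have ih' := ih x y h hv
      refine Fin.lastCases (motive := fun k => (Circuit.snoc C (Gate.const b)).val x k = true →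
        (Circuit.snoc C (Gate.const b)).val y k = true) ?_ (fun j => ?_) k
      · simp only [Circuit.val, Fin.snoc_last, Gate.eval]; exact id
      · simp only [Circuit.val, Fin.snoc_castSucc]; exact ih' j
    | and a b =>
      have ih' := ih x y h hv
      refine Fin.lastCases (motive := fun k => (Circuit.snoc C (Gate.and a b)).val x k = true →
        (Circuit.snoc C (Gate.and a b)).val y k = true) ?_ (fun j => ?_) k
      · simp only [Circuit.val, Fin.snoc_last, Gate.eval, Bool.and_eq_true]
        exact fun h => ⟨ih' _ h.1, ih' _ h.2⟩
      · simp only [Circuit.val, Fin.snoc_castSucc]; exact ih' j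
    | or a b =>
      have ih' := ih x y h hv
      refine Fin.lastCases (motive := fun k => (Circuit.snoc C (Gate.or a b)).val x k = true →
        (Circuit.snoc C (Gate.or a b)).val y k = true) ?_ (fun j => ?_) k
      · simp only [Circuit.val, Fin.snoc_last, Gate.eval, Bool.or_eq_true]
        exact fun h => h.imp (ih' _) (ih' _)
      · simp only [Circuit.val, Fin.snoc_castSucc]; exact ih' j
    | not a =>
      have hv2 : C.notVals x ++ [!(C.val x a)] = C.notVals y ++ [!(C.val y a)] := hv
      have hv3 := List.append_inj' hv2 rfl
      have ih' := ih x y h hv3.1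
      have hval : C.val x a = C.val y a := by
        have h4 := List.head_eq_of_cons_eq hv3.2
        revert h4
        cases C.val x a <;> cases C.val y a <;> simp
      refine Fin.lastCases (motive := fun k => (Circuit.snoc C (Gate.not a)).val x k = true →
        (Circuit.snoc C (Gate.not a)).val y k = true) ?_ (fun j => ?_) k
      · simp only [Circuit.val, Fin.snoc_last, Gate.eval, hval]; exact id
      · simp only [Circuit.val, Fin.snoc_castSucc]; exact ih' j

theorem NRP_mid : ∀ {n s : ℕ} (C : Circuit n s) (x y z : Fin n → Bool), x ≤ y → y ≤ z →
    C.notVals x = C.notVals z → C.notVals y = C.notVals x := by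
  intro n s C
  induction C with
  | nil => intro x y z _ _ _; rfl
  | @snoc s C g ih =>
    intro x y z h1 h2 hv
    cases g with
    | const b => exact ih x y z h1 h2 hv
    | and a b => exact ih x y z h1 h2 hv
    | or a b => exact ih x y z h1 h2 hv
    | not a =>
      have hv2 : C.notVals x ++ [!(C.val x a)] = C.notVals z ++ [!(C.val z a)] := hv
      have hv3 := List.append_inj' hv2 rfl
      have ih' := ih x y z h1 h2 hv3.1
      have hval : C.val x a = C.val z a := by
        have h4 := List.head_eq_of_cons_eq hv3.2
        revert h4
        cases C.val x a <;> cases C.val z a <;> simp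
      have hxy := NRP_mono C x y h1 ih'.symm a
      have hyz := NRP_mono C y z h2 (ih'.trans hv3.1) a
      have hy : C.val y a = C.val x a := by
        rw [← hval] at hyz
        revert hxy hyz
        cases C.val x a <;> cases C.val y a <;> simp
      show C.notVals y ++ [!(C.val y a)] = C.notVals x ++ [!(C.val x a)]
      rw [ih', hy]

theorem NRP : NRP_stmt :=
  ⟨fun _ _ C x y z => NRP_mid C x y z, fun _ _ C x y => NRP_mono C x y⟩

end Pool.Agent.ADV
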